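import Mathlib

/-!
# Cubic forms on a finite abelian group

`T3 f g h κ = ∑ κ(w,t) f(z) g(z+w) h(z+t)`, `P2 f g μ = ∑ μ(w) f(z) g(z+w)`; recentring, and the
inequality for pairs of nonnegative functions of equal mass which follows from a sum of squares
localised at one point.
-/

set_option autoImplicit false

namespace Pool.Agent.MP8b8716.S19

variable {V : Type} [AddCommGroup V] [Fintype V]

/-- the cubic form with kernel `κ` -/
def T3 (f g h : V → ℝ) (κ : V → V → ℝ) : ℝ :=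
  ∑ z, ∑ w, ∑ t, κ w t * (f z * g (z + w) * h (z + t))

/-- the quadratic form with kernel `μ` -/
def P2 (f g : V → ℝ) (μ : V → ℝ) : ℝ :=
  ∑ z, ∑ w, μ w * (f z * g (z + w))

theorem T3_swap (f g h : V → ℝ) (κ : V → V → ℝ) :
    T3 f h g (fun w t => κ t w) = T3 f g h κ := by
  unfold T3
  refine Finset.sum_congr rfl fun z _ => ?_
  rw [Finset.sum_comm]
  refine Finset.sum_congr rfl fun w _ => Finset.sum_congr rfl fun t _ => ?_
  ring

theorem T3_rec (f g h : V → ℝ) (κ : V → V → ℝ) :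
    T3 g f h (fun w t => κ (-w) (t - w)) = T3 f g h κ := by
  unfold T3
  rw [Finset.sum_comm, Finset.sum_comm (f := fun z w => ∑ t, κ w t * (f z * g (z + w) * h (z + t)))]
  rw [← Equiv.sum_comp (Equiv.neg V)]
  refine Finset.sum_congr rfl fun w _ => ?_
  rw [← Equiv.sum_comp (Equiv.addRight w)]
  refine Finset.sum_congr rfl fun z _ => ?_
  rw [← Equiv.sum_comp (Equiv.addRight (-w))]
  refine Finset.sum_congr rfl fun t _ => ?_
  have e1 : (Equiv.neg V) w = -w := rfl
  have e2 : (Equiv.addRight w) z = z + w := rfl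
  have e3 : (Equiv.addRight (-w)) t = t + -w := rfl
  rw [e1, e2, e3]
  beta_reduce
  have h1 : - -w = w := neg_neg w
  have h2 : t + -w - -w = t := by abel
  have h3 : z + w + -w = z := by abel
  have h4 : z + w + (t + -w) = z + t := by abel
  rw [h1, h2, h3, h4]
  ring

theorem T3_mass {h : V → ℝ} {S : ℝ} (hS : ∑ t, h t = S) (f g : V → ℝ) (μ : V → ℝ) :
    T3 f g h (fun w _ => μ w) = S * P2 f g μ := by
  unfold T3 P2
  rw [Finset.mul_sum]
  refine Finset.sum_congr rfl fun z _ => ?_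
  rw [Finset.mul_sum]
  refine Finset.sum_congr rfl fun w _ => ?_
  have h1 : ∑ t, h (z + t) = S := by
    rw [← hS]
    exact Equiv.sum_comp (Equiv.addLeft z) h
  rw [← h1, Finset.sum_mul]
  refine Finset.sum_congr rfl fun t _ => ?_
  ring

theorem T3_mono {f g h : V → ℝ} (hf : ∀ z, 0 ≤ f z) (hg : ∀ z, 0 ≤ g z) (hh : ∀ z, 0 ≤ h z)
    {κ κ' : V → V → ℝ} (hκ : ∀ w t, κ w t ≤ κ' w t) : T3 f g h κ ≤ T3 f g h κ' := by
  unfold T3
  refine Finset.sum_le_sum fun z _ => Finset.sum_le_sum fun w _ => Finset.sum_le_sum fun t _ => ?_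
  exact mul_le_mul_of_nonneg_right (hκ w t) (mul_nonneg (mul_nonneg (hf _) (hg _)) (hh _))

theorem T3_add (f g h : V → ℝ) (κ κ' : V → V → ℝ) :
    T3 f g h (fun w t => κ w t + κ' w t) = T3 f g h κ + T3 f g h κ' := by
  unfold T3
  simp only [← Finset.sum_add_distrib, add_mul]

theorem T3_smul (f g h : V → ℝ) (c : ℝ) (κ : V → V → ℝ) :
    T3 f g h (fun w t => c * κ w t) = c * T3 f g h κ := by
  unfold T3
  simp only [Finset.mul_sum, mul_assoc]

theorem P2_add (f g : V → ℝ) (μ μ' : V → ℝ) :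
    P2 f g (fun w => μ w + μ' w) = P2 f g μ + P2 f g μ' := by
  unfold P2
  simp only [← Finset.sum_add_distrib, add_mul]

theorem P2_neg (f g : V → ℝ) (μ : V → ℝ) : P2 g f (fun w => μ (-w)) = P2 f g μ := by
  unfold P2
  rw [Finset.sum_comm, Finset.sum_comm (f := fun z w => μ w * (f z * g (z + w)))]
  rw [← Equiv.sum_comp (Equiv.neg V)]
  refine Finset.sum_congr rfl fun w _ => ?_
  rw [← Equiv.sum_comp (Equiv.addRight w)]
  refine Finset.sum_congr rfl fun z _ => ?_
  have e1 : (Equiv.neg V) w = -w := rfl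
  have e2 : (Equiv.addRight w) z = z + w := rfl
  rw [e1, e2]
  beta_reduce
  have h1 : - -w = w := neg_neg w
  have h3 : z + w + -w = z := by abel
  rw [h1, h3]
  ring

/-- The consequence of a localised sum of squares. -/
theorem cube_main {a b : V → ℝ} (ha : ∀ z, 0 ≤ a z) (hb : ∀ z, 0 ≤ b z) {S : ℝ}
    (hSa : ∑ z, a z = S) (hSb : ∑ z, b z = S) (k11 k12 k22 : V → V → ℝ)
    (hpos : ∀ a b : V → ℝ, (∀ z, 0 ≤ a z) →
      0 ≤ T3 a a a k11 + 2 * T3 a a b k12 + T3 a b b k22)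
    (m1 m2 m3 : V → ℝ)
    (C1 : ∀ w t, k11 w t + k11 (-w) (t - w) + k11 (w - t) (-t) ≤ m1 w + m1 t + m1 (t - w))
    (C2 : ∀ w t, 2 * (k12 w t + k12 (-w) (t - w) + k22 (-t) (w - t)) ≤
      2 * m2 w + m3 t + m3 (t - w)) :
    0 ≤ S * ((P2 a a m1 + P2 a a m2 + P2 a b m3) + (P2 b b m1 + P2 b b m2 + P2 b a m3)) := by
  have key1 : ∀ a : V → ℝ, (∀ z, 0 ≤ a z) → ∑ z, a z = S → T3 a a a k11 ≤ S * P2 a a m1 := by
    intro a ha hS
    have h1 : T3 a a a (fun w t => k11 (-w) (t - w)) = T3 a a a k11 := T3_rec a a a k11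
    have h2 : T3 a a a (fun w t => k11 (w - t) (-t)) = T3 a a a k11 := by
      have e1 : T3 a a a (fun w t => k11 (w - t) (-t)) = T3 a a a (fun w t => k11 (t - w) (-w)) :=
        T3_swap a a a (fun w t => k11 (t - w) (-w))
      have e2 : T3 a a a (fun w t => k11 (t - w) (-w)) = T3 a a a (fun w t => k11 t w) :=
        T3_rec a a a (fun w t => k11 t w)
      rw [e1, e2]
      exact T3_swap a a a k11
    have h3 : T3 a a a (fun w _ => m1 w) = S * P2 a a m1 := T3_mass hS a a m1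
    have h4 : T3 a a a (fun _ t => m1 t) = S * P2 a a m1 := by
      rw [← h3]; exact T3_swap a a a (fun w _ => m1 w)
    have h5 : T3 a a a (fun w t => m1 (t - w)) = S * P2 a a m1 := by
      rw [← h4]; exact T3_rec a a a (fun _ t => m1 t)
    have h6 := T3_mono ha ha ha C1
    rw [T3_add a a a (fun w t => k11 w t + k11 (-w) (t - w)) (fun w t => k11 (w - t) (-t)),
      T3_add a a a (fun w t => k11 w t) (fun w t => k11 (-w) (t - w)),
      T3_add a a a (fun w t => m1 w + m1 t) (fun w t => m1 (t - w)),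
      T3_add a a a (fun w _ => m1 w) (fun _ t => m1 t), h1, h2, h3, h4, h5] at h6
    have h7 : T3 a a a (fun w t => k11 w t) = T3 a a a k11 := rfl
    rw [h7] at h6
    linarith
  have key2 : ∀ a b : V → ℝ, (∀ z, 0 ≤ a z) → (∀ z, 0 ≤ b z) → ∑ z, a z = S → ∑ z, b z = S →
      2 * T3 a a b k12 + T3 b a a k22 ≤ S * P2 a a m2 + S * P2 a b m3 := by
    intro a b ha hb hS hSb
    have h1 : T3 a a b (fun w t => k12 (-w) (t - w)) = T3 a a b k12 := T3_rec a a b k12
    have h2 : T3 a a b (fun w t => k22 (-t) (w - t)) = T3 b a a k22 := by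
      have e1 : T3 a b a (fun w t => k22 (-w) (t - w)) = T3 b a a k22 := T3_rec b a a k22
      rw [← e1]
      exact T3_swap a b a (fun w t => k22 (-w) (t - w))
    have h3 : T3 a a b (fun w _ => m2 w) = S * P2 a a m2 := T3_mass hSb a a m2
    have h4 : T3 a a b (fun _ t => m3 t) = S * P2 a b m3 := by
      rw [← T3_mass hS a b m3]
      exact T3_swap a b a (fun w _ => m3 w)
    have h5 : T3 a a b (fun w t => m3 (t - w)) = S * P2 a b m3 := by
      rw [← h4]; exact T3_rec a a b (fun _ t => m3 t)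
    have h6 := T3_mono ha ha hb C2
    rw [T3_smul a a b 2 (fun w t => k12 w t + k12 (-w) (t - w) + k22 (-t) (w - t)),
      T3_add a a b (fun w t => k12 w t + k12 (-w) (t - w)) (fun w t => k22 (-t) (w - t)),
      T3_add a a b (fun w t => k12 w t) (fun w t => k12 (-w) (t - w)),
      T3_add a a b (fun w t => 2 * m2 w + m3 t) (fun w t => m3 (t - w)),
      T3_add a a b (fun w _ => 2 * m2 w) (fun _ t => m3 t),
      T3_smul a a b 2 (fun w _ => m2 w), h1, h2, h3, h4, h5] at h6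
    have h7 : T3 a a b (fun w t => k12 w t) = T3 a a b k12 := rfl
    rw [h7] at h6
    linarith
  have p1 := hpos a b ha
  have p2 := hpos b a hb
  have q1 := key1 a ha hSa
  have q2 := key1 b hb hSb
  have q3 := key2 a b ha hb hSa hSb
  have q4 := key2 b a hb ha hSb hSa
  nlinarith

/-- cubic form of a kernel of finite rank -/
theorem T3_rank {I : Type} (s : Finset I) (f g h : V → ℝ) (φ ψ : I → V → ℝ) :
    T3 f g h (fun w t => ∑ i ∈ s, φ i w * ψ i t) =
      ∑ z, f z * ∑ i ∈ s, (∑ w, φ i w * g (z + w)) * ∑ t, ψ i t * h (z + t) := by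
  unfold T3
  refine Finset.sum_congr rfl fun z _ => ?_
  have h2 : ∑ i ∈ s, (∑ w, φ i w * g (z + w)) * ∑ t, ψ i t * h (z + t) =
      ∑ w, ∑ t, ∑ i ∈ s, φ i w * g (z + w) * (ψ i t * h (z + t)) := by
    calc ∑ i ∈ s, (∑ w, φ i w * g (z + w)) * ∑ t, ψ i t * h (z + t)
        = ∑ i ∈ s, ∑ w, ∑ t, φ i w * g (z + w) * (ψ i t * h (z + t)) :=
          Finset.sum_congr rfl fun i _ => Finset.sum_mul_sum _ _ _ _
      _ = ∑ w, ∑ i ∈ s, ∑ t, φ i w * g (z + w) * (ψ i t * h (z + t)) := Finset.sum_comm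
      _ = ∑ w, ∑ t, ∑ i ∈ s, φ i w * g (z + w) * (ψ i t * h (z + t)) :=
          Finset.sum_congr rfl fun w _ => Finset.sum_comm
  rw [h2, Finset.mul_sum]
  refine Finset.sum_congr rfl fun w _ => ?_
  rw [Finset.mul_sum]
  refine Finset.sum_congr rfl fun t _ => ?_
  rw [Finset.sum_mul, Finset.mul_sum]
  refine Finset.sum_congr rfl fun i _ => ?_
  ring

/-- the localised sum of squares -/
theorem sos_nonneg {I : Type} (s : Finset I) (φ ψ : I → V → ℝ) (a b : V → ℝ)
    (ha : ∀ z, 0 ≤ a z) :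
    0 ≤ T3 a a a (fun w t => ∑ i ∈ s, φ i w * φ i t) +
      2 * T3 a a b (fun w t => ∑ i ∈ s, φ i w * ψ i t) +
      T3 a b b (fun w t => ∑ i ∈ s, ψ i w * ψ i t) := by
  rw [T3_rank, T3_rank, T3_rank, Finset.mul_sum, ← Finset.sum_add_distrib,
    ← Finset.sum_add_distrib]
  refine Finset.sum_nonneg fun z _ => ?_
  have h1 : a z * ∑ i ∈ s, (∑ w, φ i w * a (z + w)) * ∑ t, φ i t * a (z + t) +
      2 * (a z * ∑ i ∈ s, (∑ w, φ i w * a (z + w)) * ∑ t, ψ i t * b (z + t)) +
      a z * ∑ i ∈ s, (∑ w, ψ i w * b (z + w)) * ∑ t, ψ i t * b (z + t) =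
      a z * ∑ i ∈ s, ((∑ w, φ i w * a (z + w)) + ∑ t, ψ i t * b (z + t)) ^ 2 := by
    rw [show ∀ x y w : ℝ, a z * x + 2 * (a z * y) + a z * w = a z * (x + 2 * y + w) from
      fun x y w => by ring]
    congr 1
    rw [Finset.mul_sum, ← Finset.sum_add_distrib, ← Finset.sum_add_distrib]
    refine Finset.sum_congr rfl fun i _ => ?_
    ring
  rw [h1]
  exact mul_nonneg (ha z) (Finset.sum_nonneg fun i _ => sq_nonneg _)

end Pool.Agent.MP8b8716.S19
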