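import Pool.Agent.Lib.MP_8b8716_co_S19.Pts
import Pool.Agent.Lib.MP_8b8716_co_S19.Cube

/-!
# The inequality for pairs of functions on the plane over the field with 19 elements
-/

set_option autoImplicit false

namespace Pool.Agent.MP8b8716.S19

/-- index set of the squares -/
def sI : Finset (ℕ × ZMod 40 × ℕ) :=
  Finset.range 11 ×ˢ (Finset.univ ×ˢ Finset.range 38)

/-- linear forms -/
noncomputable def phi (f : ℕ) (i : ℕ × ZMod 40 × ℕ) (w : V19) : ℝ :=
  (Lf i.1 (19 * f + nV w) i.2.2 : ℝ) * (Cf i.1 (i.2.1 + thV w) : ℝ)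

theorem gram (c c' : ℕ) (x y : ZMod 40) :
    ∑ i ∈ sI, ((Lf i.1 c i.2.2 : ℝ) * (Cf i.1 (i.2.1 + x) : ℝ)) *
      ((Lf i.1 c' i.2.2 : ℝ) * (Cf i.1 (i.2.1 + y) : ℝ)) = (Kf c c' (x - y) : ℝ) := by
  unfold sI Kf
  rw [Finset.sum_product]
  push_cast
  refine Finset.sum_congr rfl fun k _ => ?_
  rw [Finset.sum_product]
  rw [← acf_shift]
  unfold Gf
  push_cast
  rw [Finset.sum_mul_sum, Finset.sum_comm]
  refine Finset.sum_congr rfl fun r _ => Finset.sum_congr rfl fun l _ => ?_
  ring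

theorem gram_phi (f f' : ℕ) (w t : V19) :
    ∑ i ∈ sI, phi f i w * phi f' i t = (Kf (19 * f + nV w) (19 * f' + nV t) (thV w - thV t) : ℝ) :=
  gram _ _ _ _

theorem gram_le (f f' : ℕ) (hf : f ≤ 1) (hf' : f' ≤ 1) (w t : V19) :
    ∑ i ∈ sI, phi f i w * phi f' i t ≤ 281474976710656 * ((krV f f' w t : ℝ) - 131072) := by
  rw [gram_phi]
  have h := Kf_le_krV f f' hf hf' w t
  exact_mod_cast h

/-- the quadratic inequality for pairs of nonnegative functions of equal mass -/
theorem quad_main {a b : V19 → ℝ} (ha : ∀ z, 0 ≤ a z) (hb : ∀ z, 0 ≤ b z) {S : ℝ}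
    (hSa : ∑ z, a z = S) (hSb : ∑ z, b z = S) :
    0 ≤ S * (61205 * (∑ z, a z ^ 2 + ∑ z, b z ^ 2) +
      2 * 14521 * (∑ u ∈ Finset.univ.filter (fun u : V19 => u.1 ^ 2 + u.2 ^ 2 = 1),
        ∑ z, a z * b (z + u)) - 2 * 686 * S ^ 2) := by
  have hmain := cube_main ha hb hSa hSb
    (fun w t => ∑ i ∈ sI, phi 0 i w * phi 0 i t) (fun w t => ∑ i ∈ sI, phi 0 i w * phi 1 i t)
    (fun w t => ∑ i ∈ sI, phi 1 i w * phi 1 i t)
    (fun a b ha => sos_nonneg sI (phi 0) (phi 1) a b ha)
    (fun w => 281474976710656 * (m1 (nV w) : ℝ))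
    (fun w => 281474976710656 * ((if nV w = 0 then 61205 else 0) - 686 - (m1 (nV w) : ℝ)))
    (fun w => 281474976710656 * (if nV w = 1 then 14521 else 0))
    (by
      intro w t
      have h1 := gram_le 0 0 (by norm_num) (by norm_num) w t
      have h2 := gram_le 0 0 (by norm_num) (by norm_num) (-w) (t - w)
      have h3 := gram_le 0 0 (by norm_num) (by norm_num) (w - t) (-t)
      have h4 := (good_all w t).1
      have h5 : (krV 0 0 w t : ℝ) + krV 0 0 (-w) (t - w) + krV 0 0 (w - t) (-t) ≤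
        m1 (nV w) + m1 (nV t) + m1 (nV (t - w)) + 393216 := by exact_mod_cast h4
      linarith)
    (by
      intro w t
      have h1 := gram_le 0 1 (by norm_num) (by norm_num) w t
      have h2 := gram_le 0 1 (by norm_num) (by norm_num) (-w) (t - w)
      have h3 := gram_le 1 1 (by norm_num) (by norm_num) (-t) (w - t)
      have h4 := (good_all w t).2
      have h5 : 1372 + 2 * (m1 (nV w) : ℝ) + 2 * ((krV 0 1 w t : ℝ) + krV 0 1 (-w) (t - w) +
          krV 1 1 (-t) (w - t)) ≤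
        (if nV t = 1 then 14521 else 0) + (if nV (t - w) = 1 then 14521 else 0) +
          (if nV w = 0 then 122410 else 0) + 786432 := by exact_mod_cast h4
      have h6 : (if nV w = 0 then (122410 : ℝ) else 0) = 2 * (if nV w = 0 then 61205 else 0) := by
        split_ifs <;> norm_num
      rw [h6] at h5
      linarith)
  have hP : ∀ c : V19 → ℝ, ∑ z, c z = S →
      P2 c c (fun w => 281474976710656 * (m1 (nV w) : ℝ)) +
        P2 c c (fun w => 281474976710656 * ((if nV w = 0 then 61205 else 0) - 686 -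
          (m1 (nV w) : ℝ))) = 281474976710656 * (61205 * ∑ z, c z ^ 2 - 686 * S ^ 2) := by
    intro c hc
    rw [← P2_add]
    unfold P2
    have e1 : ∀ w : V19, (281474976710656 * (m1 (nV w) : ℝ) +
        281474976710656 * ((if nV w = 0 then 61205 else 0) - 686 - (m1 (nV w) : ℝ))) =
        281474976710656 * ((if w = 0 then 61205 else 0) - 686) := by
      intro w
      by_cases h : w = 0
      · rw [if_pos h, if_pos ((facts1 w).2.2.2.1.2 h)]
        ring
      · rw [if_neg h, if_neg (fun h' => h ((facts1 w).2.2.2.1.1 h'))]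
        ring
    simp only [e1]
    have e2 : ∀ z : V19, ∑ w : V19, 281474976710656 * ((if w = 0 then (61205 : ℝ) else 0) - 686) *
        (c z * c (z + w)) = 281474976710656 * (61205 * c z ^ 2 - 686 * (c z * S)) := by
      intro z
      have e3 : ∑ w, c (z + w) = S := by
        rw [← hc]; exact Equiv.sum_comp (Equiv.addLeft z) c
      have e4 : ∀ w : V19, 281474976710656 * ((if w = 0 then (61205 : ℝ) else 0) - 686) *
          (c z * c (z + w)) = (if w = 0 then 281474976710656 * 61205 * (c z * c (z + w)) else 0) -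
            281474976710656 * 686 * c z * c (z + w) := by
        intro w
        split_ifs <;> ring
      simp only [e4]
      rw [Finset.sum_sub_distrib, Finset.sum_ite_eq' Finset.univ (0 : V19), if_pos (Finset.mem_univ _),
        ← Finset.mul_sum, e3, add_zero]
      ring
    simp only [e2]
    rw [← Finset.mul_sum, Finset.sum_sub_distrib, ← Finset.mul_sum, ← Finset.mul_sum,
      ← Finset.sum_mul, hc]
    ring
  have hQ : ∀ c d : V19 → ℝ, P2 c d (fun w => 281474976710656 * (if nV w = 1 then 14521 else 0)) =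
      281474976710656 * 14521 * ∑ u ∈ Finset.univ.filter (fun u : V19 => u.1 ^ 2 + u.2 ^ 2 = 1),
        ∑ z, c z * d (z + u) := by
    intro c d
    unfold P2
    rw [Finset.sum_comm, Finset.sum_filter, Finset.mul_sum]
    refine Finset.sum_congr rfl fun w _ => ?_
    by_cases h : w.1 ^ 2 + w.2 ^ 2 = 1
    · rw [if_pos h, Finset.mul_sum]
      beta_reduce
      rw [if_pos ((facts1 w).2.2.2.2.2 h)]
    · rw [if_neg h, mul_zero]
      beta_reduce
      rw [if_neg (fun h' => h ((facts1 w).2.2.2.2.1 h'))]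
      simp
  have hR : ∑ u ∈ Finset.univ.filter (fun u : V19 => u.1 ^ 2 + u.2 ^ 2 = 1), ∑ z, b z * a (z + u) =
      ∑ u ∈ Finset.univ.filter (fun u : V19 => u.1 ^ 2 + u.2 ^ 2 = 1), ∑ z, a z * b (z + u) := by
    rw [Finset.sum_filter, Finset.sum_filter, ← Equiv.sum_comp (Equiv.neg V19)]
    refine Finset.sum_congr rfl fun u _ => ?_
    have e0 : (Equiv.neg V19) u = -u := rfl
    have e1 : (-u).1 ^ 2 + (-u).2 ^ 2 = u.1 ^ 2 + u.2 ^ 2 := by
      rw [Prod.fst_neg, Prod.snd_neg, neg_sq, neg_sq]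
    rw [e0]
    by_cases h : u.1 ^ 2 + u.2 ^ 2 = 1
    · rw [if_pos h, if_pos (e1.trans h), ← Equiv.sum_comp (Equiv.addRight u)]
      refine Finset.sum_congr rfl fun z _ => ?_
      have e2 : (Equiv.addRight u) z = z + u := rfl
      have e3 : z + u + -u = z := by abel
      rw [e2, e3, mul_comm]
    · rw [if_neg h, if_neg (fun h' => h (e1.symm.trans h'))]
  rw [hP a hSa, hP b hSb, hQ, hQ, hR] at hmain
  have h9 : (0 : ℝ) < 281474976710656 := by norm_num
  have h10 : S * ((281474976710656 * (61205 * ∑ z, a z ^ 2 - 686 * S ^ 2) +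
      281474976710656 * 14521 * ∑ u ∈ Finset.univ.filter
        (fun u : V19 => u.1 ^ 2 + u.2 ^ 2 = 1), ∑ z, a z * b (z + u)) +
      (281474976710656 * (61205 * ∑ z, b z ^ 2 - 686 * S ^ 2) +
      281474976710656 * 14521 * ∑ u ∈ Finset.univ.filter
        (fun u : V19 => u.1 ^ 2 + u.2 ^ 2 = 1), ∑ z, a z * b (z + u))) =
      281474976710656 * (S * (61205 * (∑ z, a z ^ 2 + ∑ z, b z ^ 2) +
      2 * 14521 * (∑ u ∈ Finset.univ.filter (fun u : V19 => u.1 ^ 2 + u.2 ^ 2 = 1),
        ∑ z, a z * b (z + u)) - 2 * 686 * S ^ 2)) := by ring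
  rw [h10] at hmain
  exact nonneg_of_mul_nonneg_right hmain h9

/-- The soft inequality for the field with 19 elements. -/
theorem soft_main {a b : V19 → ℝ} (ha : ∀ z, 0 ≤ a z ∧ a z ≤ 1) (hb : ∀ z, 0 ≤ b z ∧ b z ≤ 1)
    (hSa : ∑ z, a z = 361 / 4) (hSb : ∑ z, b z = 361 / 4) :
    1 / 20 * (∑ z, (a z - a z ^ 2) + ∑ z, (b z - b z ^ 2)) + 361 * (1 / 100) / 100 ≤
      1 / 20 * ∑ u ∈ Finset.univ.filter (fun u : V19 => u.1 ^ 2 + u.2 ^ 2 = 1),
        ∑ z, a z * b (z + u) := by
  have h1 := quad_main (fun z => (ha z).1) (fun z => (hb z).1) hSa hSb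
  have h2 := nonneg_of_mul_nonneg_right h1 (by norm_num : (0 : ℝ) < 361 / 4)
  have h3 : ∑ z, a z ^ 2 ≤ 361 / 4 := by
    rw [← hSa]
    refine Finset.sum_le_sum fun z _ => ?_
    nlinarith [(ha z).1, (ha z).2]
  have h4 : ∑ z, b z ^ 2 ≤ 361 / 4 := by
    rw [← hSb]
    refine Finset.sum_le_sum fun z _ => ?_
    nlinarith [(hb z).1, (hb z).2]
  rw [Finset.sum_sub_distrib, Finset.sum_sub_distrib, hSa, hSb]
  nlinarith

end Pool.Agent.MP8b8716.S19
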