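import Pool.Agent.Lib.MP_8b8716_co_S19.Fun

set_option autoImplicit false

namespace Pool.Agent.MP8b8716.S19

/-- the rounded cosine with frequency `k` -/
def Cf (k : ℕ) (l : ZMod 40) : ℤ := cosN ((k * l.val) % 40)

/-- its autocorrelation -/
def acf (k : ℕ) (m : ZMod 40) : ℤ := ∑ l : ZMod 40, Cf k (l + m) * Cf k l

theorem acf_shift (k : ℕ) (x y : ZMod 40) : ∑ l, Cf k (l + x) * Cf k (l + y) = acf k (x - y) := by
  unfold acf
  rw [← Equiv.sum_comp (Equiv.addRight (-y))]
  refine Finset.sum_congr rfl fun l _ => ?_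
  have e1 : (Equiv.addRight (-y)) l = l + -y := rfl
  rw [e1]
  have h1 : l + -y + x = l + (x - y) := by ring
  have h2 : l + -y + y = l := by ring
  rw [h1, h2]

theorem acf_neg (k : ℕ) (m : ZMod 40) : acf k (-m) = acf k m := by
  have h1 := acf_shift k 0 m
  have h2 := acf_shift k m 0
  rw [zero_sub] at h1
  rw [sub_zero] at h2
  rw [← h1, ← h2]
  exact Finset.sum_congr rfl fun l _ => mul_comm _ _

/-- autocorrelation on natural numbers -/
def acfN (k m : ℕ) : ℕ → ℤ
  | 0 => 0
  | n + 1 => acfN k m n + cosN ((k * ((n + m) % 40)) % 40) * cosN ((k * n) % 40)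

theorem acfN_eq (k m n : ℕ) : acfN k m n =
    ∑ i ∈ Finset.range n, cosN ((k * ((i + m) % 40)) % 40) * cosN ((k * i) % 40) := by
  induction n with
  | zero => rfl
  | succ n ih => rw [Finset.sum_range_succ, ← ih]; rfl

theorem acfN_chk : ((List.range 11).all fun k => (List.range 40).all fun m =>
    decide (acfN k m 40 = cc k (fold m))) = true := by
  decide +kernel

theorem acf_eq {k : ℕ} (hk : k < 11) (m : ZMod 40) : acf k m = cc k (fold m.val) := by
  have h1 := acfN_chk
  rw [List.all_eq_true] at h1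
  have h2 := h1 k (List.mem_range.2 hk)
  rw [List.all_eq_true] at h2
  have h3 := h2 m.val (List.mem_range.2 (ZMod.val_lt m))
  rw [decide_eq_true_eq] at h3
  rw [← h3, acfN_eq]
  unfold acf
  have h4 : ∑ i ∈ Finset.range 40, cosN ((k * ((i + m.val) % 40)) % 40) * cosN ((k * i) % 40) =
      ∑ i : Fin 40, cosN ((k * (((i : ℕ) + m.val) % 40)) % 40) * cosN ((k * (i : ℕ)) % 40) :=
    (Fin.sum_univ_eq_sum_range
      (fun i => cosN ((k * ((i + m.val) % 40)) % 40) * cosN ((k * i) % 40)) 40).symm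
  rw [h4]
  refine Fintype.sum_equiv (Equiv.refl _) _ _ fun l => ?_
  unfold Cf
  rw [ZMod.val_add]
  rfl

end Pool.Agent.MP8b8716.S19
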