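import Pool.Agent.Lib.MP_8b8716_co_S19.Fun

set_option autoImplicit false

namespace Pool.Agent.MP8b8716.S19

theorem chk1_B : ((List.range 7).all fun i => chk1 (22 + i)) = true := by
  decide +kernel

end Pool.Agent.MP8b8716.S19
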