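import Mathlib
import Pool.Agent.Lib.MP_8b8716_co_S19.Tab

/-!
# Functions read from the tables
-/

set_option autoImplicit false

namespace Pool.Agent.MP8b8716.S19

/-- evaluate a natural number before it is passed on -/
def forceN (n : ℕ) (f : ℕ → Bool) : Bool :=
  match n with
  | 0 => f 0
  | m + 1 => f (m + 1)

theorem forceN_eq (n : ℕ) (f : ℕ → Bool) : forceN n f = f n := by
  cases n <;> rfl

/-- evaluate an integer before it is passed on -/
def forceI (x : ℤ) (f : ℤ → Bool) : Bool :=
  match x with
  | Int.ofNat n => forceN n fun m => f (Int.ofNat m)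
  | Int.negSucc n => forceN n fun m => f (Int.negSucc m)

theorem forceI_eq (x : ℤ) (f : ℤ → Bool) : forceI x f = f x := by
  cases x with
  | ofNat n => exact forceN_eq n fun m => f (Int.ofNat m)
  | negSucc n => exact forceN_eq n fun m => f (Int.negSucc m)

/-- evaluate a list of integers before it is passed on -/
def forceL : List ℤ → (List ℤ → Bool) → Bool
  | [], f => f []
  | x :: xs, f => forceI x fun y => forceL xs fun ys => f (y :: ys)

theorem forceL_eq (l : List ℤ) : ∀ f : List ℤ → Bool, forceL l f = f l := by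
  induction l with
  | nil => intro f; rfl
  | cons x xs ih =>
    intro f
    unfold forceL
    rw [forceI_eq, ih]

/-- triangular numbers -/
def tri (c : ℕ) : ℕ := c * (c + 1) / 2

/-- entry `r` of row `c` of the lower triangular matrix `L_k` -/
def Lr (k c r : ℕ) : ℤ := (tb TL 18 (741 * k + tri c + r) : ℤ) - 131072

/-- autocorrelation table -/
def cc (k d : ℕ) : ℤ := (tb TC 36 (21 * k + d) : ℤ) - 34359738368

/-- rounded cosine of `π j / 20` -/
def cosN (j : ℕ) : ℤ := (tb TCos 15 j : ℤ) - 8192

/-- kernel table, `c ≤ c'` -/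
def rawK (c c' j : ℕ) : ℕ := tb TK 18 (11 * (tri c' + c) + j)

/-- partial inner product of two rows -/
def Gs (k c c' : ℕ) : ℕ → ℤ
  | 0 => 0
  | n + 1 => Gs k c c' n + Lr k c n * Lr k c' n

/-- inner product with the autocorrelations -/
def dotC (d : ℕ) : List ℤ → ℕ → ℤ
  | [], _ => 0
  | g :: gs, k => g * cc k d + dotC d gs (k + 1)

/-- slot of the table: columns of the centre do not depend on the angle -/
def jz (c c' j : ℕ) : ℕ := if c % 19 = 0 ∨ c' % 19 = 0 then 0 else j

/-- check of the kernel table for the pair of columns `c ≤ c'` -/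
def chkPair (c c' : ℕ) : Bool :=
  forceL ((List.range 11).map fun k => Gs k c c' (c + 1)) fun gs =>
    (List.range 11).all fun j =>
      decide (20 < 2 * j + (c % 19 + c' % 19) % 2) ||
        decide (dotC (2 * j + (c % 19 + c' % 19) % 2) gs 0 ≤
          281474976710656 * ((rawK c c' (jz c c' j) : ℤ) - 131072))

/-- check for the column `c'` -/
def chk1 (c' : ℕ) : Bool := (List.range (c' + 1)).all fun c => chkPair c c'

/-- norm class and angle of a point -/
def zv (z : ℕ) : ℕ := tb TZ 11 z

/-- multipliers -/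
def m1 (n : ℕ) : ℕ := tb TM 17 n

/-- difference of codes -/
def subc (a b : ℕ) : ℕ :=
  (a % 19 + 19 - b % 19) % 19 + 19 * ((a / 19 + 19 - b / 19) % 19)

/-- absolute value of an angle -/
def fold (d : ℕ) : ℕ := if 20 < d then 40 - d else d

/-- slot -/
def jj (n n' d : ℕ) : ℕ := if n = 0 ∨ n' = 0 then 0 else fold d / 2

/-- kernel table -/
def rawS (c c' j : ℕ) : ℕ := if c ≤ c' then rawK c c' j else rawK c' c j

/-- kernel value for two points given by class and angle -/
def kr (f f' v v' : ℕ) : ℕ :=
  rawS (19 * f + v / 64) (19 * f' + v' / 64) (jj (v / 64) (v' / 64) ((v % 64 + 40 - v' % 64) % 40))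

/-- the two linear inequalities -/
def chkA (vw vt vd uw ut ud : ℕ) : Bool :=
  Nat.ble (kr 0 0 vw vt + kr 0 0 uw vd + kr 0 0 ud ut)
    (m1 (vw / 64) + m1 (vt / 64) + m1 (vd / 64) + 393216) &&
  Nat.ble (1372 + 2 * m1 (vw / 64) + 2 * (kr 0 1 vw vt + kr 0 1 uw vd + kr 1 1 ut ud))
    ((if vt / 64 = 1 then 14521 else 0) + (if vd / 64 = 1 then 14521 else 0) +
      (if vw / 64 = 0 then 122410 else 0) + 786432)

/-- check for two points -/
def chk2 (w t : ℕ) : Bool :=
  forceN (zv w) fun vw => forceN (zv t) fun vt => forceN (subc t w) fun d => forceN (zv d) fun vd =>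
  forceN (zv (subc 0 w)) fun uw => forceN (zv (subc 0 t)) fun ut => forceN (zv (subc 0 d)) fun ud =>
    chkA vw vt vd uw ut ud

/-- representatives modulo rotation -/
def reps : List ℕ :=
  [0, 1, 22, 122, 151, 28, 235, 104, 98, 346, 32, 304, 193, 284, 59, 212, 340, 224, 205]

end Pool.Agent.MP8b8716.S19
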