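import Pool.Agent.Lib.MP_8b8716_co_S19.Acf
import Pool.Agent.Lib.MP_8b8716_co_S19.Chk1A
import Pool.Agent.Lib.MP_8b8716_co_S19.Chk1B
import Pool.Agent.Lib.MP_8b8716_co_S19.Chk1C
import Pool.Agent.Lib.MP_8b8716_co_S19.Chk1D

set_option autoImplicit false

namespace Pool.Agent.MP8b8716.S19

/-- lower triangular matrices -/
def Lf (k c r : ℕ) : ℤ := if r ≤ c then Lr k c r else 0

/-- Gram matrices -/
def Gf (k c c' : ℕ) : ℤ := ∑ r ∈ Finset.range 38, Lf k c r * Lf k c' r

theorem Gs_eq (k c c' n : ℕ) : Gs k c c' n = ∑ r ∈ Finset.range n, Lr k c r * Lr k c' r := by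
  induction n with
  | zero => rfl
  | succ n ih => rw [Finset.sum_range_succ, ← ih]; rfl

theorem Gf_eq {k c c' : ℕ} (h : c ≤ c') (hc : c' < 38) : Gf k c c' = Gs k c c' (c + 1) := by
  rw [Gs_eq]
  unfold Gf
  have hsub : Finset.range (c + 1) ⊆ Finset.range 38 := by
    intro r hr
    rw [Finset.mem_range] at hr ⊢
    omega
  rw [← Finset.sum_subset hsub]
  · refine Finset.sum_congr rfl fun r hr => ?_
    rw [Finset.mem_range] at hr
    have h1 : Lf k c r = Lr k c r := if_pos (by omega)
    have h2 : Lf k c' r = Lr k c' r := if_pos (by omega)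
    rw [h1, h2]
  · intro r _ hr
    rw [Finset.mem_range] at hr
    have h1 : Lf k c r = 0 := if_neg (by omega)
    rw [h1, zero_mul]

theorem Gf_comm (k c c' : ℕ) : Gf k c c' = Gf k c' c :=
  Finset.sum_congr rfl fun _ _ => mul_comm _ _

/-- the exact kernel -/
def Kf (c c' : ℕ) (m : ZMod 40) : ℤ := ∑ k ∈ Finset.range 11, Gf k c c' * acf k m

theorem Kf_comm (c c' : ℕ) (m : ZMod 40) : Kf c c' m = Kf c' c (-m) := by
  unfold Kf
  refine Finset.sum_congr rfl fun k _ => ?_
  rw [acf_neg, Gf_comm]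

theorem Kf_neg (c c' : ℕ) (m : ZMod 40) : Kf c c' (-m) = Kf c c' m := by
  unfold Kf
  refine Finset.sum_congr rfl fun k _ => ?_
  rw [acf_neg]

theorem chk1_all {c : ℕ} (hc : c < 38) : chk1 c = true := by
  have hA := chk1_A
  have hB := chk1_B
  have hC := chk1_C
  have hD := chk1_D
  rw [List.all_eq_true] at hA hB hC hD
  by_cases h1 : c < 22
  · have h := hA c (List.mem_range.2 h1)
    rwa [Nat.zero_add] at h
  by_cases h2 : c < 29
  · have h := hB (c - 22) (List.mem_range.2 (by omega))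
    rwa [show 22 + (c - 22) = c by omega] at h
  by_cases h3 : c < 34
  · have h := hC (c - 29) (List.mem_range.2 (by omega))
    rwa [show 29 + (c - 29) = c by omega] at h
  · have h := hD (c - 34) (List.mem_range.2 (by omega))
    rwa [show 34 + (c - 34) = c by omega] at h

theorem Kf_le_aux {c c' d : ℕ} (h : c ≤ c') (hc : c' < 38) (hd : d ≤ 20)
    (hp : d % 2 = (c % 19 + c' % 19) % 2) :
    ∑ k ∈ Finset.range 11, Gf k c c' * cc k d ≤
      281474976710656 * ((rawK c c' (jz c c' (d / 2)) : ℤ) - 131072) := by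
  have h1 := chk1_all hc
  unfold chk1 at h1
  rw [List.all_eq_true] at h1
  have h2 := h1 c (List.mem_range.2 (by omega))
  unfold chkPair at h2
  rw [forceL_eq, List.all_eq_true] at h2
  have h3 := h2 (d / 2) (List.mem_range.2 (by omega))
  have h4 : 2 * (d / 2) + (c % 19 + c' % 19) % 2 = d := by omega
  rw [h4, Bool.or_eq_true, decide_eq_true_eq, decide_eq_true_eq] at h3
  rcases h3 with h3 | h3
  · omega
  · refine le_trans (le_of_eq ?_) h3
    have h5 : ∀ k, Gf k c c' = Gs k c c' (c + 1) := fun k => Gf_eq h hc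
    simp only [h5]
    simp only [Finset.sum_range_succ, Finset.sum_range_zero, List.range_succ, List.range_zero,
      List.map_cons, List.map_nil, List.nil_append, List.cons_append, dotC]
    ring

theorem fold_le {d : ℕ} (hd : d < 40) : fold d ≤ 20 := by
  unfold fold
  split_ifs <;> omega

theorem Kf_eq (c c' : ℕ) (m : ZMod 40) :
    Kf c c' m = ∑ k ∈ Finset.range 11, Gf k c c' * cc k (fold m.val) := by
  unfold Kf
  refine Finset.sum_congr rfl fun k hk => ?_
  rw [acf_eq (Finset.mem_range.1 hk)]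

theorem fold_neg (m : ZMod 40) : fold (-m).val = fold m.val := by
  revert m
  decide

/-- the table bounds the kernel -/
theorem Kf_le {c c' : ℕ} (hc : c < 38) (hc' : c' < 38) (m : ZMod 40)
    (hp : (fold m.val) % 2 = (c % 19 + c' % 19) % 2) :
    Kf c c' m ≤ 281474976710656 * ((rawS c c' (jj (c % 19) (c' % 19) m.val) : ℤ) - 131072) := by
  have hd := fold_le (ZMod.val_lt m)
  rw [Kf_eq]
  unfold rawS
  by_cases h : c ≤ c'
  · rw [if_pos h]
    exact Kf_le_aux h hc' hd hp
  · rw [if_neg h]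
    have h1 : c' ≤ c := by omega
    have h2 := Kf_le_aux (d := fold m.val) h1 hc hd (by rw [hp, add_comm])
    have h3 : jz c' c (fold m.val / 2) = jj (c % 19) (c' % 19) m.val := by
      unfold jz jj
      by_cases h4 : c % 19 = 0 <;> by_cases h5 : c' % 19 = 0 <;> simp [h4, h5]
    rw [h3] at h2
    refine le_trans (le_of_eq ?_) h2
    exact Finset.sum_congr rfl fun k _ => by rw [Gf_comm]

end Pool.Agent.MP8b8716.S19
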