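import Pool.Agent.Lib.MP_8b8716_co_S19.Ker
import Pool.Agent.Lib.MP_8b8716_co_S19.Chk2

set_option autoImplicit false

namespace Pool.Agent.MP8b8716.S19

/-- the plane over the field with 19 elements -/
abbrev V19 : Type := ZMod 19 × ZMod 19

/-- code of a point -/
def code (z : V19) : ℕ := z.1.val + 19 * z.2.val

/-- norm class of a point -/
def nV (z : V19) : ℕ := zv (code z) / 64

/-- angle of a point -/
def thN (z : V19) : ℕ := zv (code z) % 64

/-- angle of a point -/
def thV (z : V19) : ZMod 40 := (thN z : ZMod 40)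

/-- rotation -/
def rot (z : V19) : V19 := (16 * z.1 - 7 * z.2, 7 * z.1 + 16 * z.2)

theorem facts1 : ∀ z : V19, nV z < 19 ∧ thN z < 40 ∧ thN z % 2 = nV z % 2 ∧
    (nV z = 0 ↔ z = 0) ∧ (nV z = 1 ↔ z.1 ^ 2 + z.2 ^ 2 = 1) := by
  decide +kernel

theorem facts2 : ∀ z : V19, nV (rot z) = nV z ∧ (z ≠ 0 → thV (rot z) = thV z + 2) := by
  decide +kernel

theorem facts3 : ∀ w : V19, ∃ j : Fin 20, code (rot^[(j : ℕ)] w) ∈ reps := by
  decide +kernel

theorem sub_val : ∀ x y : ZMod 19, (x - y).val = (x.val + 19 - y.val) % 19 := by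
  decide +kernel

theorem sub_val40 : ∀ x y : ZMod 40, (x - y).val = (x.val + 40 - y.val) % 40 := by
  decide +kernel

theorem code_lt (z : V19) : code z < 361 := by
  have h1 := ZMod.val_lt z.1
  have h2 := ZMod.val_lt z.2
  unfold code
  omega

theorem code_sub (t w : V19) : code (t - w) = subc (code t) (code w) := by
  have h1 := ZMod.val_lt t.1
  have h2 := ZMod.val_lt t.2
  have h3 := ZMod.val_lt w.1
  have h4 := ZMod.val_lt w.2
  unfold code subc
  rw [Prod.fst_sub, Prod.snd_sub, sub_val, sub_val]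
  have e1 : (t.1.val + 19 * t.2.val) % 19 = t.1.val := by omega
  have e2 : (t.1.val + 19 * t.2.val) / 19 = t.2.val := by omega
  have e3 : (w.1.val + 19 * w.2.val) % 19 = w.1.val := by omega
  have e4 : (w.1.val + 19 * w.2.val) / 19 = w.2.val := by omega
  rw [e1, e2, e3, e4]

theorem code_neg (t : V19) : code (-t) = subc 0 (code t) := by
  rw [← zero_sub, code_sub]
  rfl

/-- the kernel table on points -/
def krV (f f' : ℕ) (w t : V19) : ℕ :=
  rawS (19 * f + nV w) (19 * f' + nV t) (jj (nV w) (nV t) (thV w - thV t).val)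

theorem thV_sub_val (w t : V19) : (thV w - thV t).val = (thN w + 40 - thN t) % 40 := by
  have h1 := (facts1 w).2.1
  have h2 := (facts1 t).2.1
  unfold thV
  rw [sub_val40, ZMod.val_natCast_of_lt h1, ZMod.val_natCast_of_lt h2]

theorem kr_eq (f f' : ℕ) (w t : V19) : kr f f' (zv (code w)) (zv (code t)) = krV f f' w t := by
  unfold kr krV
  rw [thV_sub_val]
  rfl

/-- the two linear inequalities for a pair of points -/
def Good (w t : V19) : Prop :=
  krV 0 0 w t + krV 0 0 (-w) (t - w) + krV 0 0 (w - t) (-t) ≤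
    m1 (nV w) + m1 (nV t) + m1 (nV (t - w)) + 393216 ∧
  1372 + 2 * m1 (nV w) + 2 * (krV 0 1 w t + krV 0 1 (-w) (t - w) + krV 1 1 (-t) (w - t)) ≤
    (if nV t = 1 then 14521 else 0) + (if nV (t - w) = 1 then 14521 else 0) +
      (if nV w = 0 then 122410 else 0) + 786432

theorem good_rep (w t : V19) (hw : code w ∈ reps) : Good w t := by
  have h1 := chk2_all
  rw [List.all_eq_true] at h1
  have h2 := h1 _ hw
  rw [List.all_eq_true] at h2
  have h3 := h2 (code t) (List.mem_range.2 (code_lt t))
  unfold chk2 at h3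
  simp only [forceN_eq] at h3
  rw [← code_sub, ← code_neg, ← code_neg, ← code_neg, neg_sub] at h3
  unfold chkA at h3
  simp only [kr_eq] at h3
  rw [Bool.and_eq_true, Nat.ble_eq, Nat.ble_eq] at h3
  exact h3

theorem rot_zero : rot 0 = 0 := by decide

theorem rot_sub (x y : V19) : rot (x - y) = rot x - rot y := by
  unfold rot
  ext
  · simp only [Prod.fst_sub, Prod.snd_sub]
    ring
  · simp only [Prod.fst_sub, Prod.snd_sub]
    ring

theorem rot_neg (x : V19) : rot (-x) = -rot x := by
  rw [← zero_sub, rot_sub, rot_zero, zero_sub]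

theorem krV_rot (f f' : ℕ) (w t : V19) : krV f f' (rot w) (rot t) = krV f f' w t := by
  unfold krV
  rw [(facts2 w).1, (facts2 t).1]
  by_cases hw : w = 0
  · have h0 : nV w = 0 := (facts1 w).2.2.2.1.2 hw
    unfold jj
    rw [if_pos (Or.inl h0), if_pos (Or.inl h0)]
  by_cases ht : t = 0
  · have h0 : nV t = 0 := (facts1 t).2.2.2.1.2 ht
    unfold jj
    rw [if_pos (Or.inr h0), if_pos (Or.inr h0)]
  rw [(facts2 w).2 hw, (facts2 t).2 ht, add_sub_add_right_eq_sub]

theorem good_rot (w t : V19) (h : Good (rot w) (rot t)) : Good w t := by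
  unfold Good at h ⊢
  rw [← rot_sub, ← rot_sub, ← rot_neg, ← rot_neg, krV_rot, krV_rot, krV_rot, krV_rot, krV_rot,
    krV_rot, (facts2 w).1, (facts2 t).1, (facts2 (t - w)).1] at h
  exact h

theorem good_iter (j : ℕ) : ∀ w t : V19, Good (rot^[j] w) (rot^[j] t) → Good w t := by
  induction j with
  | zero => intro w t h; exact h
  | succ j ih =>
    intro w t h
    rw [Function.iterate_succ_apply, Function.iterate_succ_apply] at h
    exact good_rot w t (ih _ _ h)

theorem good_all (w t : V19) : Good w t := by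
  obtain ⟨j, hj⟩ := facts3 w
  exact good_iter j w t (good_rep _ _ hj)

theorem fold_parity (w t : V19) : fold (thV w - thV t).val % 2 = (nV w + nV t) % 2 := by
  have h1 := (facts1 w).2.1
  have h2 := (facts1 t).2.1
  have h3 := (facts1 w).2.2.1
  have h4 := (facts1 t).2.2.1
  rw [thV_sub_val]
  unfold fold
  split_ifs <;> omega

/-- the exact kernel is bounded by the table -/
theorem Kf_le_krV (f f' : ℕ) (hf : f ≤ 1) (hf' : f' ≤ 1) (w t : V19) :
    Kf (19 * f + nV w) (19 * f' + nV t) (thV w - thV t) ≤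
      281474976710656 * ((krV f f' w t : ℤ) - 131072) := by
  have h1 := (facts1 w).1
  have h2 := (facts1 t).1
  have e1 : (19 * f + nV w) % 19 = nV w := by omega
  have e2 : (19 * f' + nV t) % 19 = nV t := by omega
  have h3 := Kf_le (c := 19 * f + nV w) (c' := 19 * f' + nV t) (by omega) (by omega)
    (thV w - thV t) (by rw [e1, e2]; exact fold_parity w t)
  rw [e1, e2] at h3
  exact h3

end Pool.Agent.MP8b8716.S19
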